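import Mathlib
import Pool.Agent.Helper228.Gain.E

set_option autoImplicit false

/-!
A joint sketch of several blocks: error of the randomized algorithm which measures the blocks
before `j` completely, sketches the blocks `j, ..., J` together, and ignores the others.
-/

open scoped ENNReal InnerProductSpace
open MeasureTheory Set

namespace Pool.Agent.Y611.S

open Pool.Agent.Helper228.Gain

theorem ran_multi {σ r : ℕ → ℝ} {m : ℕ → ℕ} (hσ : ∀ i, 0 < σ i) (hr0 : ∀ i, 0 < r i)
    (hr1 : ∀ i, r i ≤ 1) {j J R k n : ℕ} {ρ : ℝ} (hρ : 0 < ρ) (hρ1 : ρ ≤ 1)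
    (hs1 : ∑ i ∈ Finset.Icc j J, σ i ≤ 2)
    (hs2 : ∑ i ∈ Finset.Icc j J, (σ i * r i) ^ 2 ≤ (2 * ρ) ^ 2)
    (hR : 0 < R) (hk : 0 < k)
    (hn : ∑ i ∈ Finset.range j, m i + R * k ≤ n) {τ : ℝ} (hτ0 : 0 ≤ τ)
    (hτ : ∀ i, J < i → 2 * σ i ≤ τ) :
    ranErr (ContinuousLinearMap.id ℝ BX) (FS σ r m) n ≤ ENNReal.ofReal
      (2 * (128 / (k:ℝ) + Real.sqrt (128 / k) * ρ
        + 4 * (((∑ i ∈ Finset.range (J + 1), m i : ℕ) : ℝ) / 4 ^ R)) + τ) := by
  classical
  have hne : Nonempty (Fin k) := ⟨⟨0, hk⟩⟩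
  set B : Finset (ℕ × ℕ) := (pre m (J + 1)).filter (fun p => j ≤ p.1) with hB
  have hBmem : ∀ p : ℕ × ℕ, p ∈ B ↔ p.1 ∈ Finset.Icc j J ∧ p.2 ∈ Finset.range (m p.1) := by
    intro p
    rw [hB, Finset.mem_filter, mem_pre, Finset.mem_Icc, Finset.mem_range]
    constructor
    · rintro ⟨⟨h1, h2⟩, h3⟩
      exact ⟨⟨h3, by omega⟩, h2⟩
    · rintro ⟨⟨h1, h2⟩, h3⟩
      exact ⟨⟨by omega, h3⟩, h1⟩
  set M := B.card with hM
  have hMle : (M : ℝ) ≤ ((∑ i ∈ Finset.range (J + 1), m i : ℕ) : ℝ) := by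
    exact_mod_cast (Finset.card_filter_le _ _).trans (card_pre m (J + 1))
  let e : Fin M ≃ B := B.equivFin.symm
  have hsum : ∀ F : ℕ × ℕ → ℝ, ∑ l : Fin M, F (e l) = ∑ i ∈ Finset.Icc j J,
      ∑ l ∈ Finset.range (m i), F (i, l) := by
    intro F
    rw [← Finset.sum_finset_product B (Finset.Icc j J) (fun i => Finset.range (m i)) hBmem (f := F)]
    exact (Equiv.sum_comp e (fun p : B => F p)).trans (Finset.sum_coe_sort B F)
  have hk0 : (0:ℝ) < k := by exact_mod_cast hk
  set ε : ℝ := 128 / (k:ℝ) + Real.sqrt (128 / k) * ρ with hε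
  have hε0 : 0 ≤ ε := by positivity
  -- sample space
  let Ω : Type := Fin R → (Fin M → Fin k) × (Fin M → Bool)
  let κ : Type := (pre m j) ⊕ (Fin R × Fin k)
  have hκ : Fintype.card κ ≤ n := by
    simp only [κ, Fintype.card_sum, Fintype.card_coe, Fintype.card_prod, Fintype.card_fin]
    have := card_pre m j
    omega
  let L : Ω → κ → BX →L[ℝ] ℝ := fun ω => Sum.elim (fun p => ev p.1)
    (fun rb => ∑ l : Fin M, if (ω rb.1).1 l = rb.2 then
      (sg ((ω rb.1).2 l)) • ev ((e l : B) : ℕ × ℕ) else 0)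
  let est : Ω → (κ → ℝ) → Fin M → ℝ := fun ω y l =>
    clip (med hR (fun i => sg ((ω i).2 l) * y (Sum.inr (i, (ω i).1 l)) / 2))
  let G : Ω → (κ → ℝ) → ℕ × ℕ → ℝ := fun ω y q =>
    if h : q ∈ pre m j then y (Sum.inl ⟨q, h⟩) else
      if h : q ∈ B then 2 * est ω y (e.symm ⟨q, h⟩) else 0
  have hGc : ∀ ω q, Continuous (fun y => G ω y q) := by
    intro ω q
    simp only [G]
    split_ifs with h1 h2
    · exact continuous_apply _
    · refine continuous_const.mul (continuous_clip.comp ((continuous_med hR).comp ?_))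
      refine continuous_pi (fun i => ?_)
      exact (continuous_const.mul (continuous_apply _)).div_const _
    · exact continuous_const
  let φ : Ω → (κ → ℝ) → BX := fun ω y => emb (pre m (J+1)) (G ω y)
  have hφ : ∀ ω, Continuous (φ ω) := fun ω => continuous_emb _ _ (hGc ω)
  have hΩne : Nonempty Ω := inferInstance
  have hM0 : (0:ℝ) ≤ ((∑ i ∈ Finset.range (J + 1), m i : ℕ) : ℝ) := Nat.cast_nonneg _
  refine ran_upper (Ω := Ω) (κ := κ) (by positivity) hκ L φ hφ (fun f hf => ?_)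
  choose g h z s t ev' using hf
  -- restrict to Fin M
  let g' : Fin M → ℝ := fun l => σ (e l : ℕ × ℕ).1 * g (e l : ℕ × ℕ).1 (e l : ℕ × ℕ).2 / 2
  let h' : Fin M → ℝ := fun l => σ (e l : ℕ × ℕ).1 * h (e l : ℕ × ℕ).1 (e l : ℕ × ℕ).2 / 2
  have hg' : ∑ l, |g' l| ≤ 1 := by
    have h1 := hsum (fun p => |σ p.1 * g p.1 p.2 / 2|)
    refine (le_of_eq h1).trans ?_
    have h2 : ∀ i ∈ Finset.Icc j J, ∑ l ∈ Finset.range (m i), |σ i * g i l / 2| ≤ σ i / 2 := by
      intro i _
      have h3 : ∀ l ∈ Finset.range (m i), |σ i * g i l / 2| = σ i / 2 * |g i l| := by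
        intro l _
        rw [abs_div, abs_mul, abs_of_pos (hσ i), abs_of_pos (by norm_num : (0:ℝ) < 2)]
        ring
      rw [Finset.sum_congr rfl h3, ← Finset.mul_sum]
      have := hσ i
      calc σ i / 2 * ∑ l ∈ Finset.range (m i), |g i l| ≤ σ i / 2 * 1 := by
            gcongr
            exact s i
        _ = _ := mul_one _
    refine (Finset.sum_le_sum h2).trans ?_
    rw [← Finset.sum_div]
    linarith
  have hh' : ∑ l, (h' l) ^ 2 ≤ ρ ^ 2 := by
    have h1 := hsum (fun p => (σ p.1 * h p.1 p.2 / 2) ^ 2)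
    refine (le_of_eq h1).trans ?_
    have h2 : ∀ i ∈ Finset.Icc j J, ∑ l ∈ Finset.range (m i), (σ i * h i l / 2) ^ 2
        ≤ (σ i * r i) ^ 2 / 4 := by
      intro i _
      have h3 : ∀ l ∈ Finset.range (m i), (σ i * h i l / 2) ^ 2 = σ i ^ 2 / 4 * (h i l) ^ 2 := by
        intro l _
        ring
      rw [Finset.sum_congr rfl h3, ← Finset.mul_sum]
      have := hσ i
      calc σ i ^ 2 / 4 * ∑ l ∈ Finset.range (m i), (h i l) ^ 2 ≤ σ i ^ 2 / 4 * (r i) ^ 2 := by
            gcongr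
            exact t i
        _ = _ := by ring
    refine (Finset.sum_le_sum h2).trans ?_
    rw [← Finset.sum_div]
    nlinarith
  let Bad : Fin M → Finset ((Fin M → Fin k) × (Fin M → Bool)) := fun l =>
    (Finset.univ.filter (fun ω => ε < |noise l (fun l => g' l + h' l) ω|))
  have hBad : ∀ l, 64 * ((Bad l).card : ℝ) ≤ Fintype.card ((Fin M → Fin k) × (Fin M → Bool)) :=
    fun l => bad_card hk l g' h' hρ hg' hh'
  let Fl : Fin M → Finset Ω := fun l => Finset.univ.filter
    (fun ω => R ≤ 2 * (Finset.univ.filter (fun i => ω i ∈ Bad l)).card)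
  have hFl : ∀ l, ((Fl l).card : ℝ) * 4 ^ R ≤ Fintype.card Ω := fun l => chernoff (Bad l) (hBad l) R
  let Fail : Finset Ω := Finset.univ.biUnion Fl
  have hFail : (Fail.card : ℝ) ≤ Fintype.card Ω * (M / 4 ^ R) := by
    have h1 : (Fail.card : ℝ) ≤ ∑ l : Fin M, ((Fl l).card : ℝ) := by
      exact_mod_cast Finset.card_biUnion_le
    have h2 : ∀ l, ((Fl l).card : ℝ) ≤ Fintype.card Ω / 4 ^ R := fun l => by
      rw [le_div_iff₀ (by positivity)]; exact hFl l
    refine h1.trans ((Finset.sum_le_sum (fun l _ => h2 l)).trans (le_of_eq ?_))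
    rw [Finset.sum_const, Finset.card_univ, Fintype.card_fin, nsmul_eq_mul]
    ring
  -- the observed data
  have hfe : ∀ l : Fin M, f (e l : ℕ × ℕ) = 2 * (g' l + h' l) := by
    intro l
    have h1 := ev' (e l : ℕ × ℕ).1 (e l : ℕ × ℕ).2
    rw [Prod.mk.eta] at h1
    rw [h1]
    simp only [g', h']
    ring
  have hL2 : ∀ (ω : Ω) (i : Fin R) (l : Fin M),
      sg ((ω i).2 l) * L ω (Sum.inr (i, (ω i).1 l)) f / 2
        = (g' l + h' l) + noise l (fun l => g' l + h' l) (ω i) := by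
    intro ω i l
    refine Eq.trans ?_ (sketch_eq l (fun l => g' l + h' l) (ω i))
    simp only [L, Sum.elim_inr, _root_.sum_apply]
    rw [mul_div_assoc]
    congr 1
    rw [Finset.sum_div]
    refine Finset.sum_congr rfl (fun l' _ => ?_)
    split_ifs with h1
    · rw [_root_.smul_apply, ev_apply, hfe, smul_eq_mul]
      ring
    · simp
  have hx : ∀ l : Fin M, |g' l + h' l| ≤ 2 := by
    intro l
    have h1 : |g' l| ≤ 1 :=
      (Finset.single_le_sum (f := fun l => |g' l|) (fun _ _ => abs_nonneg _)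
        (Finset.mem_univ l)).trans hg'
    have h2 : (h' l) ^ 2 ≤ 1 := by
      refine ((Finset.single_le_sum (f := fun l => (h' l) ^ 2) (fun _ _ => sq_nonneg _)
        (Finset.mem_univ l)).trans hh').trans ?_
      nlinarith
    have h3 : |h' l| ≤ 1 := by
      rw [← sq_abs] at h2
      nlinarith [abs_nonneg (h' l)]
    exact (abs_add_le _ _).trans (by linarith)
  -- pointwise error
  have herr : ∀ ω : Ω, ‖f - φ ω (fun i => L ω i f)‖
      ≤ 2 * (ε + (if ω ∈ Fail then 4 else 0)) + τ := by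
    intro ω
    have hb0 : (0:ℝ) ≤ (if ω ∈ Fail then (4:ℝ) else 0) := by split_ifs <;> norm_num
    rw [BoundedContinuousFunction.norm_le (by positivity)]
    rintro ⟨i, l⟩
    have hφv : φ ω (fun i => L ω i f) (i, l)
        = if (i, l) ∈ pre m (J+1) then G ω (fun i => L ω i f) (i, l) else 0 := emb_apply _ _ _
    rw [Real.norm_eq_abs]
    show |f (i, l) - φ ω (fun i => L ω i f) (i, l)| ≤ _
    rw [hφv]
    by_cases hl : l < m i
    swap
    · -- outside of the blocks
      have h2 : (i, l) ∉ pre m (J+1) := fun h => hl (mem_pre.1 h).2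
      rw [if_neg h2, ev' i l, (z i l (not_lt.1 hl)).1, (z i l (not_lt.1 hl)).2]
      simp only [add_zero, mul_zero, sub_zero, abs_zero]
      positivity
    by_cases hiJ : i ≤ J
    swap
    · have h2 : (i, l) ∉ pre m (J+1) := fun h => by
        have := (mem_pre.1 h).1
        simp only at this
        omega
      rw [if_neg h2, sub_zero]
      have hf' : f ∈ FS σ r m := fun i => ⟨g i, h i, z i, s i, t i, ev' i⟩
      refine (FS_bound (fun i => (hσ i).le) hr0 hr1 hf' i l).trans ((hτ i (not_le.1 hiJ)).trans ?_)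
      have : 0 ≤ 2 * (ε + (if ω ∈ Fail then 4 else 0)) := by positivity
      linarith
    have h2 : (i, l) ∈ pre m (J+1) := mem_pre.2 ⟨by simp only; omega, hl⟩
    rw [if_pos h2]
    by_cases hij : i < j
    · have h1 : (i, l) ∈ pre m j := mem_pre.2 ⟨hij, hl⟩
      simp only [G, dif_pos h1, L, Sum.elim_inl, ev_apply]
      rw [sub_self, abs_zero]
      positivity
    · have h1 : (i, l) ∉ pre m j := fun h => hij (mem_pre.1 h).1
      have h3 : (i, l) ∈ B := (hBmem _).2 ⟨Finset.mem_Icc.2 ⟨not_lt.1 hij, hiJ⟩,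
        Finset.mem_range.2 hl⟩
      have hGv : G ω (fun i => L ω i f) (i, l)
          = 2 * est ω (fun i => L ω i f) (e.symm ⟨(i, l), h3⟩) := by
        exact (dif_neg h1).trans (dif_pos h3)
      rw [hGv]
      set q : Fin M := e.symm ⟨(i, l), h3⟩ with hq
      have h4 : f (i, l) = 2 * (g' q + h' q) := by
        rw [← hfe q, hq, Equiv.apply_symm_apply]
      rw [h4, ← mul_sub, abs_mul, abs_of_pos (by norm_num : (0:ℝ) < 2)]
      have h5 : |(g' q + h' q) - est ω (fun i => L ω i f) q|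
          ≤ ε + (if ω ∈ Fail then 4 else 0) := by
        rw [abs_sub_comm]
        simp only [est]
        simp only [hL2]
        by_cases hF : ω ∈ Fail
        · rw [if_pos hF]
          have := clip_bound (a := med hR (fun i => g' q + h' q
            + noise q (fun l => g' l + h' l) (ω i))) (hx q)
          linarith
        · rw [if_neg hF, add_zero]
          refine clip_close (hx q) (med_close hR _ _ _ ?_)
          have h6 : ω ∉ Fl q := fun h => hF (Finset.mem_biUnion.2 ⟨_, Finset.mem_univ _, h⟩)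
          simp only [Fl, Finset.mem_filter, Finset.mem_univ, true_and, not_le] at h6
          refine lt_of_le_of_lt (le_of_eq ?_) h6
          congr 2
          ext i
          simp only [Bad, Finset.mem_filter, Finset.mem_univ, true_and, add_sub_cancel_left]
      have h6 := mul_le_mul_of_nonneg_left h5 (by norm_num : (0:ℝ) ≤ 2)
      linarith
  show ∑ ω : Ω, ‖f - φ ω (fun i => L ω i f)‖ ≤ _
  calc ∑ ω : Ω, ‖f - φ ω (fun i => L ω i f)‖
      ≤ ∑ ω : Ω, (2 * (ε + (if ω ∈ Fail then 4 else 0)) + τ) := Finset.sum_le_sum (fun ω _ => herr ω)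
    _ = Fintype.card Ω * (2 * ε + τ) + 8 * Fail.card := by
        have h1 : ∀ ω : Ω, 2 * (ε + (if ω ∈ Fail then (4:ℝ) else 0)) + τ
            = (2 * ε + τ) + (if ω ∈ Fail then 8 else 0) := by
          intro ω; split_ifs <;> ring
        simp only [h1]
        rw [Finset.sum_add_distrib, Finset.sum_const, Finset.card_univ, nsmul_eq_mul,
          ← Finset.sum_filter, Finset.sum_const, nsmul_eq_mul, Finset.filter_univ_mem]
        ring
    _ ≤ Fintype.card Ω * (2 * ε + τ) + 8 * (Fintype.card Ω * (M / 4 ^ R)) := by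
        gcongr
    _ ≤ Fintype.card Ω * (2 * ε + τ)
          + 8 * (Fintype.card Ω * (((∑ i ∈ Finset.range (J + 1), m i : ℕ) : ℝ) / 4 ^ R)) := by
        gcongr
    _ = Fintype.card Ω * (2 * (ε
          + 4 * (((∑ i ∈ Finset.range (J + 1), m i : ℕ) : ℝ) / 4 ^ R)) + τ) := by ring

end Pool.Agent.Y611.S
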