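import Mathlib
import Pool.Agent.Y611.S.Sk

set_option autoImplicit false

/-!
One instance for which the rate of the randomized errors exceeds the rate of the deterministic
errors by exactly one: parameters.
-/

open scoped ENNReal
open MeasureTheory Set

namespace Pool.Agent.Y611.S

open Pool.Agent.Helper228.Gain

/-- logarithm of the size of the block `j` -/
def ax (j : ℕ) : ℕ := (j + 2) ^ 2 * 2 ^ j

/-- logarithm of the number of functionals which do not help in the block `j` -/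
def bx (j : ℕ) : ℕ := (j + 2) * 2 ^ j

/-- block sizes -/
def mm (j : ℕ) : ℕ := 2 ^ ax j

/-- numbers of functionals that do not help -/
def NN (j : ℕ) : ℕ := 2 ^ bx j

/-- block weights -/
noncomputable def sw (j : ℕ) : ℝ := (1 / 2) ^ (2 ^ j)

/-- radii of the Euclidean balls -/
noncomputable def rr (j : ℕ) : ℝ := Real.sqrt ((NN j : ℝ) / mm j)

/-- the instance -/
noncomputable abbrev Fz : Set BX := FS sw rr mm

/-- the identity of the space -/
noncomputable abbrev Sid : BX →L[ℝ] BX := ContinuousLinearMap.id ℝ BX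

lemma ax_succ (j : ℕ) : 2 * ax j + 1 ≤ ax (j + 1) := by
  unfold ax
  have h1 : 0 < 2 ^ j := by positivity
  have h2 : (j + 1 + 2) ^ 2 * 2 ^ (j + 1) = 2 * ((j + 2) ^ 2 * 2 ^ j) + (2 * j + 5) * (2 * 2 ^ j) := by
    ring
  rw [h2]
  nlinarith

lemma ax_mono : StrictMono ax := strictMono_nat_of_lt_succ (fun j => by have := ax_succ j; omega)

lemma bx_mono : StrictMono bx := by
  refine strictMono_nat_of_lt_succ (fun j => ?_)
  unfold bx
  have h1 : 0 < 2 ^ j := by positivity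
  have h2 : (j + 1 + 2) * 2 ^ (j + 1) = (j + 2) * 2 ^ j + (j + 4) * 2 ^ j := by ring
  rw [h2]
  nlinarith

lemma mm_pos (j : ℕ) : 0 < mm j := by unfold mm; positivity
lemma NN_pos (j : ℕ) : 0 < NN j := by unfold NN; positivity
lemma sw_pos (j : ℕ) : 0 < sw j := by unfold sw; positivity

lemma sw_anti {i j : ℕ} (h : i ≤ j) : sw j ≤ sw i := by
  unfold sw
  exact pow_le_pow_of_le_one (by norm_num) (by norm_num) (Nat.pow_le_pow_right (by norm_num) h)

lemma sw_le (j : ℕ) : sw j ≤ (1 / 2) ^ (j + 1) := by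
  unfold sw
  exact pow_le_pow_of_le_one (by norm_num) (by norm_num) Nat.lt_two_pow_self

lemma sw_le_one (j : ℕ) : sw j ≤ 1 := by
  unfold sw; exact pow_le_one₀ (by norm_num) (by norm_num)

lemma sum_sw (j J : ℕ) : ∑ i ∈ Finset.Icc j J, sw i ≤ 1 := by
  have h1 : ∑ i ∈ Finset.Icc j J, sw i ≤ ∑ i ∈ Finset.range (J + 1), sw i := by
    refine Finset.sum_le_sum_of_subset_of_nonneg ?_ (fun i _ _ => (sw_pos i).le)
    intro i hi
    rw [Finset.mem_Icc] at hi
    rw [Finset.mem_range]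
    omega
  have h2 : ∀ n : ℕ, ∑ i ∈ Finset.range n, sw i ≤ 1 - (1 / 2) ^ n := by
    intro n
    induction n with
    | zero => simp
    | succ n ih =>
      rw [Finset.sum_range_succ]
      have := sw_le n
      rw [pow_succ] at *
      linarith
  have h3 : (0:ℝ) < (1 / 2) ^ (J + 1) := by positivity
  linarith [h2 (J + 1)]

lemma sum_mm (j : ℕ) : ∑ i ∈ Finset.range (j + 1), mm i ≤ 2 * mm j := by
  induction j with
  | zero => simp; have := mm_pos 0; omega
  | succ j ih =>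
    rw [Finset.sum_range_succ]
    have h1 : 2 * mm j ≤ mm (j + 1) := by
      unfold mm
      rw [← pow_succ']
      exact Nat.pow_le_pow_right (by norm_num) (by have := ax_succ j; omega)
    omega

/-- `m_j / N_j = 2 ^ dx j` -/
def dx (j : ℕ) : ℕ := (j + 1) * (j + 2) * 2 ^ j

lemma ax_eq (j : ℕ) : ax j = bx j + dx j := by
  unfold ax bx dx; ring

lemma dx_mono {i j : ℕ} (h : i ≤ j) : dx i ≤ dx j := by
  unfold dx
  have h1 : 2 ^ i ≤ 2 ^ j := Nat.pow_le_pow_right (by norm_num) h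
  exact Nat.mul_le_mul (Nat.mul_le_mul (by omega) (by omega)) h1

lemma ratio_eq (j : ℕ) : (NN j : ℝ) / mm j = (1 / 2) ^ dx j := by
  unfold NN mm
  rw [ax_eq]
  push_cast
  rw [pow_add, one_div, inv_pow]
  field_simp

lemma two_le_dx (j : ℕ) : 2 ≤ dx j := by
  have : dx 0 ≤ dx j := dx_mono (Nat.zero_le _)
  exact this

lemma ratio_quarter (j : ℕ) : (NN j : ℝ) / mm j ≤ 1 / 4 := by
  rw [ratio_eq]
  calc ((1:ℝ) / 2) ^ dx j ≤ (1 / 2) ^ 2 :=
        pow_le_pow_of_le_one (by norm_num) (by norm_num) (two_le_dx j)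
    _ = 1 / 4 := by norm_num

lemma rr_sq (j : ℕ) : rr j ^ 2 = (NN j : ℝ) / mm j := by
  unfold rr
  rw [Real.sq_sqrt (by positivity)]

lemma rr_pos (j : ℕ) : 0 < rr j := by
  unfold rr
  have h1 : (0:ℝ) < mm j := by exact_mod_cast mm_pos j
  have h2 : (0:ℝ) < NN j := by exact_mod_cast NN_pos j
  positivity

lemma rr_le_one (j : ℕ) : rr j ≤ 1 := by
  have h1 := rr_sq j
  have h2 := ratio_quarter j
  have h3 := rr_pos j
  nlinarith

lemma rr_anti {i j : ℕ} (h : i ≤ j) : rr j ^ 2 ≤ rr i ^ 2 := by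
  rw [rr_sq, rr_sq, ratio_eq, ratio_eq]
  exact pow_le_pow_of_le_one (by norm_num) (by norm_num) (dx_mono h)

lemma sum_sw_rr (j J : ℕ) : ∑ i ∈ Finset.Icc j J, (sw i * rr i) ^ 2 ≤ (2 * rr j) ^ 2 := by
  have h1 : ∀ i ∈ Finset.Icc j J, (sw i * rr i) ^ 2 ≤ sw i * rr j ^ 2 := by
    intro i hi
    rw [Finset.mem_Icc] at hi
    rw [mul_pow]
    have h2 := sw_pos i
    have h3 := sw_le_one i
    have h4 := rr_anti hi.1
    have h5 : sw i ^ 2 ≤ sw i := by nlinarith
    have h6 : 0 ≤ rr i ^ 2 := sq_nonneg _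
    calc sw i ^ 2 * rr i ^ 2 ≤ sw i * rr i ^ 2 := by gcongr
      _ ≤ sw i * rr j ^ 2 := by gcongr
  refine (Finset.sum_le_sum h1).trans ?_
  rw [← Finset.sum_mul]
  have h2 := sum_sw j J
  have h3 : 0 ≤ rr j ^ 2 := sq_nonneg _
  nlinarith

/-- the deterministic error is large for all numbers of functionals up to `N_j` -/
lemma det_ge {j n : ℕ} (hn : n ≤ NN j) : ENNReal.ofReal (sw j / 2) ≤ detErr Sid Fz n := by
  have h0 : (0:ℝ) < mm j := by exact_mod_cast mm_pos j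
  have h1 : (n:ℝ) / mm j ≤ (NN j : ℝ) / mm j := by
    gcongr
  refine det_bound (sw_pos) (mm_pos j) ?_ (h1.trans (ratio_quarter j))
  rw [rr_sq]
  exact h1

/-- the deterministic error is at least `c n ^ (-ε)` -/
theorem det_all {ε : ℝ} (hε : 0 < ε) : ∃ c : ℝ, 0 < c ∧ ∀ n : ℕ, 1 ≤ n →
    ENNReal.ofReal (c * (n:ℝ) ^ (-ε)) ≤ detErr Sid Fz n := by
  classical
  obtain ⟨j₀, hj₀⟩ := exists_nat_gt (2 / ε)
  refine ⟨sw j₀ / 2, by have := sw_pos j₀; positivity, fun n hn => ?_⟩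
  have hn1 : (1:ℝ) ≤ n := by exact_mod_cast hn
  have hn0 : (0:ℝ) < n := by linarith
  have hpow1 : (n:ℝ) ^ (-ε) ≤ 1 := Real.rpow_le_one_of_one_le_of_nonpos hn1 (by linarith)
  have hpow0 : 0 < (n:ℝ) ^ (-ε) := by positivity
  rcases le_or_gt n (NN j₀) with h1 | h1
  · refine le_trans (ENNReal.ofReal_le_ofReal ?_) (det_ge h1)
    have := sw_pos j₀
    nlinarith
  · have hex : ∃ j, n ≤ NN j := by
      refine ⟨n, ?_⟩
      unfold NN
      have h2 : n ≤ bx n := (bx_mono).le_apply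
      exact (Nat.lt_two_pow_self (n := n)).le.trans (Nat.pow_le_pow_right (by norm_num) h2)
    obtain ⟨j, hj, hmin⟩ : ∃ j, n ≤ NN j ∧ ∀ i < j, NN i < n :=
      ⟨Nat.find hex, Nat.find_spec hex, fun i hi => not_le.1 (Nat.find_min hex hi)⟩
    have hjj : j₀ < j := by
      by_contra hcon
      have h2 : NN j ≤ NN j₀ := by
        unfold NN
        exact Nat.pow_le_pow_right (by norm_num) (bx_mono.monotone (not_lt.1 hcon))
      omega
    obtain ⟨i, rfl⟩ : ∃ i, j = i + 1 := ⟨j - 1, by omega⟩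
    have h2 := hmin i (by omega)
    refine le_trans (ENNReal.ofReal_le_ofReal ?_) (det_ge hj)
    -- `n ^ (-ε) ≤ 2 ^ (-ε b_i) ≤ sw (i + 1)`
    have h3 : (2:ℝ) ^ ((bx i : ℕ) : ℝ) ≤ n := by
      rw [Real.rpow_natCast]
      have : ((NN i : ℕ) : ℝ) ≤ n := by exact_mod_cast h2.le
      unfold NN at this
      push_cast at this
      exact this
    have h4 : (n:ℝ) ^ (-ε) ≤ ((2:ℝ) ^ ((bx i : ℕ) : ℝ)) ^ (-ε) :=
      Real.rpow_le_rpow_of_nonpos (by positivity) h3 (by linarith)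
    have h5 : ((2:ℝ) ^ ((bx i : ℕ) : ℝ)) ^ (-ε) ≤ sw (i + 1) := by
      unfold sw
      rw [← Real.rpow_mul (by norm_num), one_div, inv_pow, ← Real.rpow_natCast,
        ← Real.rpow_neg (by norm_num)]
      refine Real.rpow_le_rpow_of_exponent_le (by norm_num) ?_
      unfold bx
      push_cast
      have h6 : 2 ≤ ε * (i + 2) := by
        have h7 : (j₀:ℝ) ≤ i := by exact_mod_cast (by omega : j₀ ≤ i)
        have h8 : 2 / ε < i + 2 := by linarith
        rw [div_lt_iff₀ hε] at h8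
        linarith
      have h9 : (0:ℝ) < 2 ^ i := by positivity
      rw [pow_succ]
      nlinarith
    have h6 := sw_pos (i + 1)
    have h7 := sw_le_one j₀
    have h8 := sw_pos j₀
    nlinarith

/-- trivial bound for the randomized error -/
lemma ran_triv (n : ℕ) : ranErr Sid Fz n ≤ ENNReal.ofReal 2 := by
  refine ran_upper (Ω := Unit) (κ := Empty) (by norm_num) (by simp) (fun _ _ => 0) (fun _ _ => 0)
    (fun _ => continuous_const) (fun f hf => ?_)
  simp only [Finset.univ_unique, Finset.sum_singleton, Fintype.card_unit, Nat.cast_one, one_mul,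
    sub_zero, ContinuousLinearMap.id_apply]
  rw [BoundedContinuousFunction.norm_le (by norm_num)]
  rintro ⟨i, l⟩
  rw [Real.norm_eq_abs]
  refine (FS_bound (fun i => (sw_pos i).le) (rr_pos) (rr_le_one) hf i l).trans ?_
  have := sw_le_one i
  linarith

/-- choice of the first block which is not measured completely -/
lemma exists_block {n : ℕ} :
    ∃ j, 2 * ∑ i ∈ Finset.range j, mm i ≤ n ∧ n < 4 * mm j ∧ (∀ i < j, mm i ≤ n) := by
  classical
  have hex : ∃ j, n < 2 * ∑ i ∈ Finset.range (j + 1), mm i := by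
    refine ⟨n, ?_⟩
    have h1 : mm n ≤ ∑ i ∈ Finset.range (n + 1), mm i :=
      Finset.single_le_sum (f := fun i => mm i) (fun _ _ => Nat.zero_le _)
        (Finset.mem_range.2 (Nat.lt_succ_self n))
    have h2 : n < mm n := by
      unfold mm
      exact (Nat.lt_two_pow_self (n := n)).trans_le
        (Nat.pow_le_pow_right (by norm_num) (ax_mono.le_apply))
    omega
  have key : 2 * ∑ i ∈ Finset.range (Nat.find hex), mm i ≤ n := by
    rcases Nat.eq_zero_or_pos (Nat.find hex) with h0 | h0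
    · rw [h0]; simp
    · obtain ⟨j, hj⟩ : ∃ j, Nat.find hex = j + 1 := ⟨Nat.find hex - 1, by omega⟩
      have h1 := Nat.find_min hex (m := j) (by omega)
      rw [not_lt] at h1
      rw [hj]; exact h1
  refine ⟨Nat.find hex, key, ?_, ?_⟩
  · have h1 := Nat.find_spec hex
    have h2 := sum_mm (Nat.find hex)
    omega
  · intro i hi
    have h1 : mm i ≤ ∑ i ∈ Finset.range (Nat.find hex), mm i :=
      Finset.single_le_sum (f := fun i => mm i) (fun _ _ => Nat.zero_le _)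
        (Finset.mem_range.2 hi)
    omega

/-- powers of the logarithm -/
lemma log_cube {n : ℕ} (hn : 1 ≤ n) {ε : ℝ} (hε : 0 < ε) :
    ((Nat.log 2 n : ℕ) + 2 : ℝ) ^ 3 ≤ (2 + 6 / ε) ^ 3 * (n:ℝ) ^ ε := by
  have hn1 : (1:ℝ) ≤ n := by exact_mod_cast hn
  have hn0 : (0:ℝ) < n := by linarith
  have h0 : 1 ≤ (n:ℝ) ^ (ε / 3) := Real.one_le_rpow hn1 (by positivity)
  have h1 : ((Nat.log 2 n : ℕ) : ℝ) ≤ 6 / ε * (n:ℝ) ^ (ε / 3) := by
    have h2 : ((Nat.log 2 n : ℕ) : ℝ) * Real.log 2 ≤ Real.log n := by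
      rw [← Real.log_pow]
      refine Real.log_le_log (by positivity) ?_
      exact_mod_cast Nat.pow_log_le_self 2 (by omega)
    have h3 : Real.log n ≤ (n:ℝ) ^ (ε / 3) / (ε / 3) :=
      Real.log_le_rpow_div hn0.le (by positivity)
    have h4 := Real.log_two_gt_d9
    have h5 : (0:ℝ) ≤ ((Nat.log 2 n : ℕ) : ℝ) := Nat.cast_nonneg _
    have h6 : ((Nat.log 2 n : ℕ) : ℝ) * (1 / 2) ≤ (n:ℝ) ^ (ε / 3) / (ε / 3) := by
      refine le_trans ?_ (h2.trans h3)
      gcongr
      linarith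
    calc ((Nat.log 2 n : ℕ) : ℝ) = 2 * (((Nat.log 2 n : ℕ) : ℝ) * (1 / 2)) := by ring
      _ ≤ 2 * ((n:ℝ) ^ (ε / 3) / (ε / 3)) := by gcongr
      _ = _ := by field_simp; ring
  have h2 : ((Nat.log 2 n : ℕ) : ℝ) + 2 ≤ (2 + 6 / ε) * (n:ℝ) ^ (ε / 3) := by
    rw [add_mul]; linarith
  have h3 : (0:ℝ) ≤ ((Nat.log 2 n : ℕ) : ℝ) + 2 := by positivity
  calc ((Nat.log 2 n : ℕ) + 2 : ℝ) ^ 3 ≤ ((2 + 6 / ε) * (n:ℝ) ^ (ε / 3)) ^ 3 :=
        pow_le_pow_left₀ h3 h2 3
    _ = (2 + 6 / ε) ^ 3 * (n:ℝ) ^ ε := by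
        rw [mul_pow, ← Real.rpow_natCast ((n:ℝ) ^ (ε / 3)), ← Real.rpow_mul hn0.le]
        congr 2
        push_cast
        ring

end Pool.Agent.Y611.S
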