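import Mathlib
import Pool.Agent.Y611.S.Par
import Pool.Agent.H780R2.GainUpper

set_option autoImplicit false

/-!
One instance for which the rate of the randomized errors exceeds the rate of the deterministic
errors by exactly one: the upper bound for the randomized errors and the rates.
-/

open scoped ENNReal
open MeasureTheory Set

namespace Pool.Agent.Y611.S

open Pool.Agent.Helper228.Gain

/-- `r_j ^ 2 ≤ C n ^ (-1 + ε)` for `n < 4 m_j` -/
lemma rr_bound {ε : ℝ} (hε : 0 < ε) (hε1 : ε < 1) : ∃ C : ℝ, 0 < C ∧ ∀ n j : ℕ, 1 ≤ n →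
    n < 4 * mm j → rr j ^ 2 ≤ C * (n:ℝ) ^ (-1 + ε) := by
  obtain ⟨j₀, hj₀⟩ := exists_nat_gt (1 / ε)
  refine ⟨4 * mm j₀, by have := mm_pos j₀; positivity, fun n j hn hnj => ?_⟩
  have hn1 : (1:ℝ) ≤ n := by exact_mod_cast hn
  have hn0 : (0:ℝ) < n := by linarith
  have hm0 : (0:ℝ) < mm j := by exact_mod_cast mm_pos j
  have hm1 : (1:ℝ) ≤ mm j₀ := by exact_mod_cast mm_pos j₀
  have hq : 0 < (n:ℝ) ^ (-1 + ε) := by positivity
  rcases le_or_gt j₀ j with h1 | h1
  · -- large blocks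
    have h2 : rr j ^ 2 ≤ (mm j : ℝ) ^ (-1 + ε) := by
      rw [rr_sq, Real.rpow_add hm0, Real.rpow_neg_one, div_eq_mul_inv, mul_comm]
      gcongr
      unfold NN mm
      push_cast
      rw [← Real.rpow_natCast 2 (bx j), ← Real.rpow_natCast 2 (ax j), ← Real.rpow_mul (by norm_num)]
      refine Real.rpow_le_rpow_of_exponent_le (by norm_num) ?_
      unfold ax bx
      push_cast
      have h3 : 1 ≤ ε * (j + 2) := by
        have h4 : (j₀:ℝ) ≤ j := by exact_mod_cast h1
        have h5 : 1 / ε < j + 2 := by linarith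
        rw [div_lt_iff₀ hε] at h5
        linarith
      have h4 : (0:ℝ) < 2 ^ j := by positivity
      have h5 : (0:ℝ) < (j + 2) * 2 ^ j := by positivity
      calc ((j:ℝ) + 2) * 2 ^ j = ((j + 2) * 2 ^ j) * 1 := by ring
        _ ≤ ((j + 2) * 2 ^ j) * (ε * (j + 2)) := by gcongr
        _ = _ := by ring
    have h3 : (mm j : ℝ) ^ (-1 + ε) ≤ ((n:ℝ) / 4) ^ (-1 + ε) := by
      have h4 : (n:ℝ) / 4 ≤ mm j := by
        have : (n:ℝ) < 4 * mm j := by exact_mod_cast hnj
        linarith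
      exact Real.rpow_le_rpow_of_nonpos (by positivity) h4 (by linarith)
    have h4 : ((n:ℝ) / 4) ^ (-1 + ε) ≤ 4 * (n:ℝ) ^ (-1 + ε) := by
      rw [Real.div_rpow hn0.le (by norm_num), div_eq_mul_inv, ← Real.rpow_neg (by norm_num),
        mul_comm]
      gcongr
      calc (4:ℝ) ^ (-(-1 + ε)) ≤ 4 ^ (1:ℝ) :=
            Real.rpow_le_rpow_of_exponent_le (by norm_num) (by linarith)
        _ = 4 := Real.rpow_one _
    calc rr j ^ 2 ≤ 4 * (n:ℝ) ^ (-1 + ε) := h2.trans (h3.trans h4)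
      _ ≤ 4 * mm j₀ * (n:ℝ) ^ (-1 + ε) := by gcongr; linarith
  · -- small blocks
    have h2 : mm j ≤ mm j₀ := by
      unfold mm
      exact Nat.pow_le_pow_right (by norm_num) (ax_mono.monotone h1.le)
    have h3 : (n:ℝ) ≤ 4 * mm j₀ := by
      have : n ≤ 4 * mm j₀ := by omega
      exact_mod_cast this
    have h4 : rr j ^ 2 ≤ 1 := by
      have := rr_le_one j
      have := rr_pos j
      nlinarith
    have h5 : 1 ≤ (n:ℝ) ^ ε := Real.one_le_rpow hn1 hε.le
    calc rr j ^ 2 ≤ 1 := h4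
      _ = n * (n:ℝ)⁻¹ := by field_simp
      _ ≤ (4 * mm j₀) * ((n:ℝ)⁻¹ * (n:ℝ) ^ ε) := by
          gcongr
          exact le_mul_of_one_le_right (by positivity) h5
      _ = 4 * mm j₀ * (n:ℝ) ^ (-1 + ε) := by
          rw [Real.rpow_add hn0, Real.rpow_neg_one]

/-- the randomized error is at most `C n ^ (-1 + ε)` -/
theorem ran_all {ε : ℝ} (hε : 0 < ε) (hε1 : ε < 1) : ∃ C : ℝ, 0 < C ∧ ∀ n : ℕ, 1 ≤ n →
    ranErr Sid Fz n ≤ ENNReal.ofReal (C * (n:ℝ) ^ (-1 + ε)) := by
  obtain ⟨C₁, hC₁, hr⟩ := rr_bound hε hε1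
  set D : ℝ := (2 + 6 / ε) ^ 3 with hD
  have hD0 : 0 < D := by positivity
  refine ⟨1024 * D + 2 * Real.sqrt (512 * D * C₁) + 66 + 4 * D, by positivity, fun n hn => ?_⟩
  have hn1 : (1:ℝ) ≤ n := by exact_mod_cast hn
  have hn0 : (0:ℝ) < n := by linarith
  set q : ℝ := (n:ℝ) ^ (-1 + ε) with hq
  have hq0 : 0 < q := by positivity
  have hqe : q = (n:ℝ) ^ ε / n := by
    rw [hq, Real.rpow_add hn0, Real.rpow_neg_one, div_eq_mul_inv, mul_comm]
  have hinv : 1 / (n:ℝ) ≤ q := by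
    rw [hqe]
    gcongr
    exact Real.one_le_rpow hn1 hε.le
  obtain ⟨j, hP, hnM, hlow⟩ := exists_block (n := n)
  set ℓ : ℕ := Nat.log 2 n with hℓ
  set J : ℕ := Nat.log 2 ℓ with hJ
  have hjJ : j ≤ J := by
    rcases Nat.eq_zero_or_pos j with h0 | h0
    · omega
    · obtain ⟨i, rfl⟩ : ∃ i, j = i + 1 := ⟨j - 1, by omega⟩
      have h1 := hlow i (by omega)
      unfold mm at h1
      have h2 : ax i ≤ ℓ := (Nat.le_log_iff_pow_le (by norm_num) (by omega)).2 h1
      have h3 : 2 ^ (i + 1) ≤ ℓ := by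
        refine le_trans ?_ h2
        unfold ax
        rw [pow_succ, mul_comm]
        exact Nat.mul_le_mul_right _ (by nlinarith)
      have h4 : ℓ ≠ 0 := by
        have : 0 < 2 ^ (i + 1) := by positivity
        omega
      exact (Nat.le_log_iff_pow_le (by norm_num) h4).2 h3
  have hnJ : n < 2 ^ 2 ^ (J + 1) := by
    have h1 : n < 2 ^ (ℓ + 1) := Nat.lt_pow_succ_log_self (by norm_num) n
    have h2 : ℓ < 2 ^ (J + 1) := Nat.lt_pow_succ_log_self (by norm_num) ℓ
    exact h1.trans_le (Nat.pow_le_pow_right (by norm_num) h2)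
  have hswJ : ∀ i, J < i → 2 * sw i ≤ 2 * (1 / (n:ℝ)) := by
    intro i hi
    have h1 := sw_anti (Nat.succ_le_of_lt hi)
    have h2 : sw (J + 1) ≤ 1 / (n:ℝ) := by
      unfold sw
      rw [one_div_pow]
      refine one_div_le_one_div_of_le hn0 ?_
      exact_mod_cast hnJ.le
    have h3 : sw i ≤ sw (J + 1) := h1
    linarith
  set R : ℕ := ax J with hR
  have hR0 : 0 < R := by
    rw [hR]; unfold ax; positivity
  have hRr : (0:ℝ) < R := by exact_mod_cast hR0
  have hRD : (R:ℝ) / n ≤ D * q := by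
    have h1 : (R:ℝ) ≤ D * (n:ℝ) ^ ε := by
      refine le_trans ?_ (log_cube hn hε)
      rw [← hℓ]
      have h2 : R ≤ (ℓ + 2) ^ 3 := by
        rw [hR]
        unfold ax
        rcases Nat.eq_zero_or_pos ℓ with h0 | h0
        · have : J = 0 := by rw [hJ, h0]; simp
          rw [this, h0]; norm_num
        · have h3 : 2 ^ J ≤ ℓ := Nat.pow_log_le_self 2 (by omega)
          have h4 : J ≤ ℓ := (Nat.lt_two_pow_self (n := J)).le.trans h3
          calc (J + 2) ^ 2 * 2 ^ J ≤ (ℓ + 2) ^ 2 * (ℓ + 2) :=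
                Nat.mul_le_mul (Nat.pow_le_pow_left (by omega) 2) (by omega)
            _ = _ := by ring
      exact_mod_cast h2
    calc (R:ℝ) / n ≤ D * (n:ℝ) ^ ε / n := by gcongr
      _ = D * q := by rw [mul_div_assoc, hqe]
  rcases Nat.eq_zero_or_pos (n / (2 * R)) with hk | hk
  · -- few functionals
    refine (ran_triv n).trans (ENNReal.ofReal_le_ofReal ?_)
    have h1 : n < 2 * R := by
      rcases Nat.div_eq_zero_iff.1 hk with h2 | h2
      · omega
      · exact h2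
    have h2 : (n:ℝ) < 2 * R := by exact_mod_cast h1
    have h3 : (2:ℝ) ≤ 4 * (R / n) := by
      rw [← mul_div_assoc, le_div_iff₀ hn0]; linarith
    have h4 : 0 ≤ Real.sqrt (512 * D * C₁) := Real.sqrt_nonneg _
    nlinarith [mul_nonneg hD0.le hq0.le, mul_nonneg h4 hq0.le]
  · set k : ℕ := n / (2 * R) with hkdef
    have hkr : (0:ℝ) < k := by exact_mod_cast hk
    have hcost : ∑ i ∈ Finset.range j, mm i + R * k ≤ n := by
      have h1 : k * (2 * R) ≤ n := Nat.div_mul_le_self _ _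
      have h2 : 2 * (R * k) ≤ n := by
        calc 2 * (R * k) = k * (2 * R) := by ring
          _ ≤ n := h1
      omega
    have h1k : 1 / (k:ℝ) ≤ 4 * (R / n) := by
      have h1 : n < 2 * R * (k + 1) := Nat.lt_mul_div_succ n (by positivity)
      have h2 : n ≤ 4 * R * k := by
        have h0 : 2 * R * (k + 1) ≤ 2 * R * (k + k) := Nat.mul_le_mul_left _ (by omega)
        calc n ≤ 2 * R * (k + k) := h1.le.trans h0
          _ = 4 * R * k := by ring
      have h3 : (n:ℝ) ≤ 4 * R * k := by exact_mod_cast h2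
      rw [← mul_div_assoc, div_le_div_iff₀ hkr hn0]
      linarith
    have h1k' : 1 / (k:ℝ) ≤ 4 * (D * q) := h1k.trans (by gcongr)
    refine (ran_multi sw_pos rr_pos rr_le_one (rr_pos j) (rr_le_one j)
      ((sum_sw j J).trans (by norm_num)) (sum_sw_rr j J) hR0 hk hcost
      (τ := 2 * (1 / (n:ℝ))) (by positivity) hswJ).trans (ENNReal.ofReal_le_ofReal ?_)
    have t1 : 128 / (k:ℝ) ≤ 512 * D * q := by
      calc 128 / (k:ℝ) = 128 * (1 / k) := by ring
        _ ≤ 128 * (4 * (D * q)) := by gcongr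
        _ = _ := by ring
    have t2 : Real.sqrt (128 / k) * rr j ≤ Real.sqrt (512 * D * C₁) * q := by
      refine le_of_sq_le_sq ?_ (by positivity)
      rw [mul_pow, mul_pow, Real.sq_sqrt (by positivity), Real.sq_sqrt (by positivity)]
      have h1 := hr n j hn hnM
      calc 128 / (k:ℝ) * rr j ^ 2 ≤ 512 * D * q * (C₁ * q) := by gcongr
        _ = _ := by ring
    have t3 : 4 * (((∑ i ∈ Finset.range (J + 1), mm i : ℕ) : ℝ) / 4 ^ R) ≤ 32 * q := by
      have h1 : ((∑ i ∈ Finset.range (J + 1), mm i : ℕ) : ℝ) ≤ 2 * 2 ^ R := by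
        have := sum_mm J
        have h2 : ((∑ i ∈ Finset.range (J + 1), mm i : ℕ) : ℝ) ≤ ((2 * mm J : ℕ) : ℝ) := by
          exact_mod_cast this
        refine h2.trans (le_of_eq ?_)
        unfold mm
        push_cast
        rw [hR]
      have h2 : (4:ℝ) ^ R = 2 ^ R * 2 ^ R := by
        rw [← mul_pow]; norm_num
      have h3 : (n:ℝ) < 4 * 2 ^ R := by
        have h4 : n < 4 * mm J := by
          have : mm j ≤ mm J := by
            unfold mm
            exact Nat.pow_le_pow_right (by norm_num) (ax_mono.monotone hjJ)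
          omega
        have h5 : (n:ℝ) < 4 * (mm J : ℝ) := by exact_mod_cast h4
        unfold mm at h5
        push_cast at h5
        exact h5
      have h4 : (0:ℝ) < 2 ^ R := by positivity
      calc 4 * (((∑ i ∈ Finset.range (J + 1), mm i : ℕ) : ℝ) / 4 ^ R)
          ≤ 4 * ((2 * 2 ^ R) / (2 ^ R * 2 ^ R)) := by rw [h2]; gcongr
        _ = 8 * (1 / 2 ^ R) := by field_simp; ring
        _ ≤ 8 * (4 * (1 / n)) := by
            gcongr
            rw [← mul_div_assoc, div_le_div_iff₀ h4 hn0]; linarith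
        _ ≤ 8 * (4 * q) := by gcongr
        _ = _ := by ring
    have h5 : 2 * (128 / (k:ℝ) + Real.sqrt (128 / k) * rr j
        + 4 * (((∑ i ∈ Finset.range (J + 1), mm i : ℕ) : ℝ) / 4 ^ R)) + 2 * (1 / (n:ℝ))
        ≤ 2 * (512 * D * q + Real.sqrt (512 * D * C₁) * q + 32 * q) + 2 * q := by
      gcongr
    have h6 : 0 ≤ D * q := by positivity
    linarith

/-- the rate of the deterministic errors is zero -/
theorem rate_det : rate (detErr Sid Fz) = 0 := by
  refine le_antisymm ?_ bot_le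
  rw [← ENNReal.ofReal_zero]
  refine rate_le (fun α _ hα C hC => ?_)
  obtain ⟨c, hc, hdet⟩ := det_all (ε := α / 2) (by positivity)
  -- choose `n` with `C n ^ (-α) < c n ^ (-α / 2)`
  obtain ⟨n, hn1, hn⟩ : ∃ n : ℕ, 1 ≤ n ∧ C / c < (n:ℝ) ^ (α / 2) := by
    have h1 : Filter.Tendsto (fun n : ℕ => (n:ℝ) ^ (α / 2)) Filter.atTop Filter.atTop :=
      (tendsto_rpow_atTop (by positivity)).comp tendsto_natCast_atTop_atTop
    obtain ⟨n, h2, h3⟩ := ((h1.eventually_gt_atTop (C / c)).and (Filter.eventually_ge_atTop 1)).exists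
    exact ⟨n, h3, h2⟩
  refine ⟨n, hn1, lt_of_lt_of_le ?_ (hdet n hn1)⟩
  have hn0 : (0:ℝ) < n := by exact_mod_cast hn1
  rw [ENNReal.ofReal_lt_ofReal_iff (by positivity)]
  rw [div_lt_iff₀ hc] at hn
  have h1 : (n:ℝ) ^ (-(α / 2)) = (n:ℝ) ^ (α / 2) * (n:ℝ) ^ (-α) := by
    rw [← Real.rpow_add hn0]
    congr 1
    ring
  rw [h1]
  have h2 : 0 < (n:ℝ) ^ (-α) := by positivity
  nlinarith

/-- the rate of the randomized errors is one -/
theorem rate_ran : rate (ranErr Sid Fz) = 1 := by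
  refine le_antisymm ?_ ?_
  · have h1 : rate (ranErr Sid Fz) - rate (detErr Sid Fz) ≤ gain :=
      le_sSup ⟨BX, BX, inferInstance, inferInstance, inferInstance, inferInstance, inferInstance,
        inferInstance, Sid, Fz, FS_convex _ _ _, FS_symm _ _ _, by rw [rate_det]; simp, rfl⟩
    rw [rate_det, tsub_zero] at h1
    exact h1.trans Pool.Agent.H780R2.GainUpper.gain_le_one
  · have h1 : ∀ K : ℕ, 2 ≤ K → ENNReal.ofReal (1 - 1 / (K:ℝ)) ≤ rate (ranErr Sid Fz) := by
      intro K hK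
      have hK2 : (2:ℝ) ≤ K := by exact_mod_cast hK
      have h2 : 1 / (K:ℝ) ≤ 1 / 2 := one_div_le_one_div_of_le (by norm_num) hK2
      have h3 : 0 < 1 / (K:ℝ) := by positivity
      obtain ⟨C, hC, h⟩ := ran_all h3 (by linarith)
      refine le_rate (by linarith) ⟨C, hC.le, fun n hn => (h n hn).trans (le_of_eq ?_)⟩
      congr 3
      ring
    have h2 : Filter.Tendsto (fun K : ℕ => ENNReal.ofReal (1 - 1 / (K : ℝ))) Filter.atTop
        (nhds (ENNReal.ofReal (1 - 0))) := by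
      apply ENNReal.tendsto_ofReal
      exact tendsto_const_nhds.sub (tendsto_const_div_atTop_nhds_zero_nat 1)
    rw [sub_zero, ENNReal.ofReal_one] at h2
    refine le_of_tendsto h2 ?_
    filter_upwards [Filter.eventually_ge_atTop 2] with K hK using h1 K hK

end Pool.Agent.Y611.S
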